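import Pool.Agent.Helper33.TB.Goals

/-!
# Project TB (MP_74f661_nt), packet T1: the error term of the renewal identity
-/

set_option autoImplicit false

open Finset Filter Topology

namespace Pool.Agent.Helper8.TB

open Pool.Agent.Helper33.TB

/-! ### averages -/

theorem av_mono {Q : ℕ} {f g : ℤ → ℝ} (h : ∀ t, f t ≤ g t) : Av Q f ≤ Av Q g := by
  unfold Av
  exact div_le_div_of_nonneg_right (Finset.sum_le_sum fun t _ => h t) (Nat.cast_nonneg Q)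

theorem av_abs (Q : ℕ) (f : ℤ → ℝ) : |Av Q f| ≤ Av Q (fun t => |f t|) := by
  unfold Av
  rw [abs_div, abs_of_nonneg (Nat.cast_nonneg (α := ℝ) Q)]
  exact div_le_div_of_nonneg_right (Finset.abs_sum_le_sum_abs _ _) (Nat.cast_nonneg Q)

theorem av_add (Q : ℕ) (f g : ℤ → ℝ) : Av Q (fun t => f t + g t) = Av Q f + Av Q g := by
  unfold Av
  rw [Finset.sum_add_distrib, add_div]

theorem av_mul (Q : ℕ) (c : ℝ) (f : ℤ → ℝ) : Av Q (fun t => c * f t) = c * Av Q f := by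
  unfold Av
  rw [← Finset.mul_sum, mul_div_assoc]

theorem av_const {Q : ℕ} (hQ : 0 < Q) (c : ℝ) : Av Q (fun _ => c) = c := by
  unfold Av
  rw [Finset.sum_const, Finset.card_range, nsmul_eq_mul]
  have : (Q : ℝ) ≠ 0 := by exact_mod_cast hQ.ne'
  field_simp

theorem av_sum (Q : ℕ) (b : ℕ) (f : ℕ → ℤ → ℝ) :
    Av Q (fun t => ∑ m ∈ range b, f m t) = ∑ m ∈ range b, Av Q (f m) := by
  unfold Av
  rw [Finset.sum_comm, Finset.sum_div]

/-! ### real inequalities -/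

theorem good_bound {τ B ε β N N0 v f : ℝ} (hτ : 0 < τ) (hB : 0 ≤ B) (hβ : τ * B ≤ β)
    (hβ1 : β ≤ 1) (hN : 0 ≤ N) (hN2 : N ≤ 2 * B) (hv : 0 ≤ v) (hf : 0 ≤ f)
    (hN0 : |τ * N0 - τ * B| ≤ τ * B * ε) :
    |τ * N0 - τ * B| * (v * f) + (τ * N + τ * B) *
      ((N + τ * B * (v + N)) * f + 2 * N * (v + N)) ≤
    τ * B * ((ε + 3 * β) * (v * f) + 12 * B * (v + f) + 24 * B ^ 2) := by
  have hτB : 0 ≤ τ * B := by positivity
  have h1 : |τ * N0 - τ * B| * (v * f) ≤ τ * B * ε * (v * f) :=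
    mul_le_mul_of_nonneg_right hN0 (by positivity)
  have h2 : τ * N + τ * B ≤ 3 * (τ * B) := by
    have : τ * N ≤ τ * (2 * B) := mul_le_mul_of_nonneg_left hN2 hτ.le
    linarith
  have h3 : τ * B * N ≤ 2 * B := by
    calc τ * B * N ≤ 1 * N := mul_le_mul_of_nonneg_right (hβ.trans hβ1) hN
      _ ≤ 2 * B := by linarith
  have h4 : (N + τ * B * (v + N)) * f ≤ (4 * B + β * v) * f := by
    apply mul_le_mul_of_nonneg_right _ hf
    have : τ * B * v ≤ β * v := mul_le_mul_of_nonneg_right hβ hv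
    nlinarith
  have h5 : 2 * N * (v + N) ≤ 4 * B * v + 8 * B ^ 2 := by
    have h6 : N * v ≤ 2 * B * v := mul_le_mul_of_nonneg_right hN2 hv
    have h7 : N * N ≤ (2 * B) * (2 * B) := mul_le_mul hN2 hN2 hN (by positivity)
    nlinarith
  have h8 : 0 ≤ (N + τ * B * (v + N)) * f + 2 * N * (v + N) := by positivity
  have h9 : (τ * N + τ * B) * ((N + τ * B * (v + N)) * f + 2 * N * (v + N)) ≤
      3 * (τ * B) * ((4 * B + β * v) * f + (4 * B * v + 8 * B ^ 2)) :=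
    mul_le_mul h2 (add_le_add h4 h5) h8 (by positivity)
  calc |τ * N0 - τ * B| * (v * f) + (τ * N + τ * B) *
      ((N + τ * B * (v + N)) * f + 2 * N * (v + N))
      ≤ τ * B * ε * (v * f) + 3 * (τ * B) * ((4 * B + β * v) * f + (4 * B * v + 8 * B ^ 2)) :=
        add_le_add h1 h9
    _ = τ * B * ((ε + 3 * β) * (v * f) + 12 * B * (v + f) + 24 * B ^ 2) := by ring

theorem amgm {r v : ℝ} (hr : 0 < r) : v ≤ (r * v ^ 2 + 1 / r) / 2 := by
  have h : 0 ≤ (r * v - 1) ^ 2 / r := by positivity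
  have h2 : (r * v - 1) ^ 2 / r = r * v ^ 2 - 2 * v + 1 / r := by
    field_simp
    ring
  rw [h2] at h
  linarith

theorem good_bound2 {τ r B ε v f : ℝ} (hr : 0 < r) (hτ : r ^ 2 = τ) (hB : 0 ≤ B) (hε : 0 ≤ ε)
    (hβ1 : B * r ≤ 1) :
    τ * B * ((ε + 3 * (B * r)) * (v * f) + 12 * B * (v + f) + 24 * B ^ 2) ≤
      τ * B * (ε / 2 + 15 / 2 * (B * r)) * (v ^ 2 + f ^ 2) + 36 * B * (B * r) := by
  have hBr : 0 ≤ B * r := by positivity
  have hτ0 : 0 < τ := by rw [← hτ]; positivity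
  have h1 : v * f ≤ (v ^ 2 + f ^ 2) / 2 := by nlinarith [sq_nonneg (v - f)]
  have h2 : v + f ≤ (r * (v ^ 2 + f ^ 2) + 2 / r) / 2 := by
    have h3 := amgm (v := v) hr
    have h4 := amgm (v := f) hr
    have h5 : 2 / r = 1 / r + 1 / r := by ring
    rw [h5]
    linarith
  have h3 : (ε + 3 * (B * r)) * (v * f) ≤ (ε + 3 * (B * r)) * ((v ^ 2 + f ^ 2) / 2) :=
    mul_le_mul_of_nonneg_left h1 (by positivity)
  have h4 : 12 * B * (v + f) ≤ 12 * B * ((r * (v ^ 2 + f ^ 2) + 2 / r) / 2) :=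
    mul_le_mul_of_nonneg_left h2 (by positivity)
  have h5 : τ * B * ((ε + 3 * (B * r)) * (v * f) + 12 * B * (v + f) + 24 * B ^ 2) ≤
      τ * B * ((ε + 3 * (B * r)) * ((v ^ 2 + f ^ 2) / 2) +
        12 * B * ((r * (v ^ 2 + f ^ 2) + 2 / r) / 2) + 24 * B ^ 2) :=
    mul_le_mul_of_nonneg_left (by linarith) (by positivity)
  refine h5.trans ?_
  have h6 : τ * B * ((ε + 3 * (B * r)) * ((v ^ 2 + f ^ 2) / 2) +
        12 * B * ((r * (v ^ 2 + f ^ 2) + 2 / r) / 2) + 24 * B ^ 2) =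
      τ * B * (ε / 2 + 15 / 2 * (B * r)) * (v ^ 2 + f ^ 2) +
        (12 * B * (B * r) + 24 * B * (B * r) ^ 2) := by
    rw [← hτ]
    field_simp
    ring
  rw [h6]
  have h7 : B * (B * r) ^ 2 ≤ B * (B * r) := by
    apply mul_le_mul_of_nonneg_left _ hB
    nlinarith
  nlinarith

theorem nb_nonneg {X : ℤ → ℝ} (hX : ∀ t, X t = 0 ∨ X t = 1) (b : ℕ) (t : ℤ) : 0 ≤ Nb X b t := by
  unfold Nb
  apply Finset.sum_nonneg
  intro i _
  rcases hX (t + (i : ℤ)) with h | h <;> rw [h]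
  norm_num

/-- one block -/
theorem block (hP1 : StmtP1) {Q : ℕ} {X : ℤ → ℝ} (hS : Sq Q X) {τ : ℝ} {b : ℕ} {ε : ℝ}
    {F V : ℤ → ℝ} (hτ : 0 < τ) (hτ1 : τ ≤ 1) (hε : 0 ≤ ε) (hε1 : ε ≤ 1 / 2)
    (hρ0 : 0 < Av Q X) (hρ1 : Av Q X ≤ 1)
    (hb : 2 ≤ Av Q X * b) (hβ : Av Q X * b * Real.sqrt τ ≤ 1) (hF : RecF X τ F)
    (hV : RecV X (τ * Av Q X) V) (hF1 : ∀ t, |F t| ≤ 1 / τ) (t : ℤ)
    (hg : ¬ ε * (Av Q X * b) < |Nb X b t - Av Q X * b|) :
    |∑ m ∈ range b, (τ * X (t + (m : ℤ)) - τ * Av Q X) * V (t + (m : ℤ)) * F (t + (m : ℤ))| ≤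
      τ * (Av Q X * b) * (ε / 2 + 15 / 2 * (Av Q X * b * Real.sqrt τ)) *
        (V t ^ 2 + F (t + (b : ℤ)) ^ 2) + 36 * (Av Q X * b) * (Av Q X * b * Real.sqrt τ) := by
  have hr : 0 < Real.sqrt τ := Real.sqrt_pos.mpr hτ
  have hr1 : Real.sqrt τ ≤ 1 := by rw [Real.sqrt_le_one]; exact hτ1
  have hr2 : Real.sqrt τ ^ 2 = τ := Real.sq_sqrt hτ.le
  have hB : 0 ≤ Av Q X * b := by linarith
  have hτr : τ ≤ Real.sqrt τ := by
    calc τ = Real.sqrt τ ^ 2 := hr2.symm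
      _ ≤ Real.sqrt τ := by nlinarith
  have hP := hP1 X τ (τ * Av Q X) F V hS.zo hτ.le (by positivity)
    (by nlinarith) hF hV (fun t => by
      have h := hF1 t
      rw [le_div_iff₀ hτ] at h
      linarith) b t
  have hNb : Nb X (b + 1) t = Nb X b t + X (t + (b : ℤ)) := by
    unfold Nb
    rw [Finset.sum_range_succ]
  have hX1 : X (t + (b : ℤ)) ≤ 1 := by
    rcases hS.zo (t + (b : ℤ)) with h | h <;> rw [h]
    norm_num
  push Not at hg
  have hg2 := (abs_le.mp hg).2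
  have hN2 : Nb X (b + 1) t ≤ 2 * (Av Q X * b) := by
    rw [hNb]
    have : ε * (Av Q X * b) ≤ 1 / 2 * (Av Q X * b) := mul_le_mul_of_nonneg_right hε1 hB
    linarith
  have hτB : τ * (Av Q X * b) ≤ Av Q X * b * Real.sqrt τ := by
    rw [mul_comm τ]
    exact mul_le_mul_of_nonneg_left hτr hB
  have hN0 : |τ * Nb X b t - τ * (Av Q X * b)| ≤ τ * (Av Q X * b) * ε := by
    rw [← mul_sub, abs_mul, abs_of_pos hτ, mul_assoc]
    apply mul_le_mul_of_nonneg_left _ hτ.le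
    rw [mul_comm _ ε]
    exact hg
  have h1 := good_bound (v := |V t|) (f := |F (t + (b : ℤ))|) hτ hB hτB hβ
    (nb_nonneg hS.zo (b + 1) t) hN2 (abs_nonneg _) (abs_nonneg _) hN0
  have h2 := good_bound2 (ε := ε) (v := |V t|) (f := |F (t + (b : ℤ))|) hr hr2 hB hε hβ
  rw [sq_abs, sq_abs] at h2
  refine (hP.trans ?_).trans (h1.trans h2)
  rw [mul_assoc τ (Av Q X) (b : ℝ)]

/-- the trivial bound -/
theorem triv {Q : ℕ} {X : ℤ → ℝ} (hS : Sq Q X) {τ : ℝ} {b : ℕ}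
    {F V : ℤ → ℝ} (hτ : 0 < τ) (hρ0 : 0 < Av Q X) (hρ1 : Av Q X ≤ 1)
    (hF1 : ∀ t, |F t| ≤ 1 / τ) (hV1 : ∀ t, |V t| ≤ 1 / (τ * Av Q X)) (t : ℤ) :
    |∑ m ∈ range b, (τ * X (t + (m : ℤ)) - τ * Av Q X) * V (t + (m : ℤ)) * F (t + (m : ℤ))| ≤
      b / (τ * Av Q X) := by
  have h1 : ∀ m ∈ range b, |(τ * X (t + (m : ℤ)) - τ * Av Q X) * V (t + (m : ℤ)) *
      F (t + (m : ℤ))| ≤ 1 / (τ * Av Q X) := by
    intro m _
    rw [abs_mul, abs_mul]
    have h2 : |τ * X (t + (m : ℤ)) - τ * Av Q X| ≤ τ := by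
      rw [← mul_sub, abs_mul, abs_of_pos hτ]
      have h3 : |X (t + (m : ℤ)) - Av Q X| ≤ 1 := by
        rw [abs_le]
        rcases hS.zo (t + (m : ℤ)) with h | h <;> rw [h] <;> constructor <;> linarith
      nlinarith
    have hpos : 0 < τ * Av Q X := by positivity
    calc |τ * X (t + (m : ℤ)) - τ * Av Q X| * |V (t + (m : ℤ))| * |F (t + (m : ℤ))|
        ≤ τ * (1 / (τ * Av Q X)) * (1 / τ) := by
          apply mul_le_mul _ (hF1 _) (abs_nonneg _) (by positivity)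
          exact mul_le_mul h2 (hV1 _) (abs_nonneg _) hτ.le
      _ = 1 / (τ * Av Q X) := by field_simp
  calc _ ≤ ∑ m ∈ range b, |(τ * X (t + (m : ℤ)) - τ * Av Q X) * V (t + (m : ℤ)) *
      F (t + (m : ℤ))| := Finset.abs_sum_le_sum_abs _ _
    _ ≤ ∑ m ∈ range b, 1 / (τ * Av Q X) := Finset.sum_le_sum h1
    _ = b / (τ * Av Q X) := by
      rw [Finset.sum_const, Finset.card_range, nsmul_eq_mul]
      ring

theorem final_ineq {ρ τ bR ε β δ w : ℝ} (hρ : 0 < ρ) (hτ : 0 < τ) (hb : 0 < bR) (hε : 0 ≤ ε)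
    (hβ : 0 ≤ β) (hδ : 0 ≤ δ) (hw : 0 ≤ w) :
    (bR / (τ * ρ) * δ + (τ * (ρ * bR) * (ε / 2 + 15 / 2 * β) * w + 36 * (ρ * bR) * β)) / bR ≤
      37 * ρ * (ε + β + δ / (τ * ρ ^ 2)) * (1 + τ * w) := by
  have h1 : (bR / (τ * ρ) * δ + (τ * (ρ * bR) * (ε / 2 + 15 / 2 * β) * w +
      36 * (ρ * bR) * β)) / bR =
      ρ * (δ / (τ * ρ ^ 2)) + ρ * ((ε / 2 + 15 / 2 * β) * (τ * w)) + ρ * (36 * β) := by
    field_simp
    ring
  rw [h1]
  have hd : 0 ≤ δ / (τ * ρ ^ 2) := by positivity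
  obtain ⟨d, hdd⟩ : ∃ d, d = δ / (τ * ρ ^ 2) := ⟨_, rfl⟩
  rw [← hdd] at hd ⊢
  obtain ⟨x, hxx⟩ : ∃ x, x = τ * w := ⟨_, rfl⟩
  have hx : 0 ≤ x := by rw [hxx]; positivity
  rw [← hxx]
  have h2 : d + (ε / 2 + 15 / 2 * β) * x + 36 * β ≤ 37 * ((ε + β + d) * (1 + x)) := by
    have a1 : 0 ≤ ε * x := mul_nonneg hε hx
    have a2 : 0 ≤ β * x := mul_nonneg hβ hx
    have a3 : 0 ≤ d * x := mul_nonneg hd hx
    nlinarith
  calc ρ * d + ρ * ((ε / 2 + 15 / 2 * β) * x) + ρ * (36 * β)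
      = ρ * (d + (ε / 2 + 15 / 2 * β) * x + 36 * β) := by ring
    _ ≤ ρ * (37 * ((ε + β + d) * (1 + x))) := mul_le_mul_of_nonneg_left h2 hρ.le
    _ = 37 * ρ * (ε + β + d) * (1 + x) := by ring

theorem t1 (hPER : StmtPER) (hP1 : StmtP1) : StmtT1 := by
  classical
  intro Q X hS τ b ε δ F V hτ hτ1 hε hε1 hδ hb hβ hC hPF hPV hF hV hF1 hV1
  have hQ := hS.pos
  have hbR : (0 : ℝ) ≤ b := Nat.cast_nonneg b
  have hX1 : ∀ t, X t ≤ 1 := fun t => by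
    rcases hS.zo t with h | h <;> rw [h]
    norm_num
  have hX0 : ∀ t, 0 ≤ X t := fun t => by
    rcases hS.zo t with h | h <;> rw [h]
    norm_num
  have hρ1 : Av Q X ≤ 1 := by
    calc Av Q X ≤ Av Q (fun _ => (1 : ℝ)) := av_mono hX1
      _ = 1 := av_const hQ 1
  have hρ0 : 0 < Av Q X := by
    by_contra h
    push Not at h
    nlinarith
  have hb0 : (0 : ℝ) < b := by
    rcases eq_or_lt_of_le hbR with h | h
    · rw [← h, mul_zero] at hb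
      linarith
    · exact h
  have hpos : 0 < τ * Av Q X := by positivity
  -- the block sums
  obtain ⟨S, hSdef⟩ : ∃ S : ℤ → ℝ, S = fun t => ∑ m ∈ range b,
    (τ * X (t + (m : ℤ)) - τ * Av Q X) * V (t + (m : ℤ)) * F (t + (m : ℤ)) := ⟨_, rfl⟩
  have hg : Per Q (fun t => (τ * X t - τ * Av Q X) * V t * F t) := by
    intro t
    show (τ * X (t + Q) - τ * Av Q X) * V (t + Q) * F (t + Q) = _
    rw [hS.per t, hPV t, hPF t]
  have hAvS : Av Q S = b * Av Q (fun t => (τ * X t - τ * Av Q X) * V t * F t) := by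
    rw [hSdef, av_sum Q b (fun m t => (τ * X (t + (m : ℤ)) - τ * Av Q X) * V (t + (m : ℤ)) *
      F (t + (m : ℤ)))]
    have h1 : ∀ m ∈ range b, Av Q (fun t => (τ * X (t + (m : ℤ)) - τ * Av Q X) *
        V (t + (m : ℤ)) * F (t + (m : ℤ))) =
        Av Q (fun t => (τ * X t - τ * Av Q X) * V t * F t) :=
      fun m _ => hPER.shift Q _ hg (m : ℤ)
    rw [Finset.sum_congr rfl h1, Finset.sum_const, Finset.card_range, nsmul_eq_mul]
  -- the pointwise bound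
  obtain ⟨bad, hbad⟩ : ∃ bad : ℤ → ℝ, bad = fun t =>
    if ε * (Av Q X * b) < |Nb X b t - Av Q X * b| then (1 : ℝ) else 0 := ⟨_, rfl⟩
  have hbadle : Av Q bad ≤ δ := by
    rw [hbad]
    exact hC
  have hr : 0 < Real.sqrt τ := Real.sqrt_pos.mpr hτ
  have hBpos : 0 ≤ Av Q X * b := by linarith
  have hβ0 : 0 ≤ Av Q X * b * Real.sqrt τ := by positivity
  have hpt : ∀ t, |S t| ≤ (b / (τ * Av Q X)) * bad t +
      ((τ * (Av Q X * b) * (ε / 2 + 15 / 2 * (Av Q X * b * Real.sqrt τ))) *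
        (V t ^ 2 + F (t + (b : ℤ)) ^ 2) + 36 * (Av Q X * b) * (Av Q X * b * Real.sqrt τ)) := by
    intro t
    rw [hbad, hSdef]
    by_cases h : ε * (Av Q X * b) < |Nb X b t - Av Q X * b|
    · simp only [if_pos h, mul_one]
      have h1 := triv (b := b) hS hτ hρ0 hρ1 hF1 hV1 t
      have h2 : 0 ≤ (τ * (Av Q X * b) * (ε / 2 + 15 / 2 * (Av Q X * b * Real.sqrt τ))) *
        (V t ^ 2 + F (t + (b : ℤ)) ^ 2) + 36 * (Av Q X * b) * (Av Q X * b * Real.sqrt τ) := by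
        positivity
      linarith
    · simp only [if_neg h, mul_zero, zero_add]
      exact block hP1 hS hτ hτ1 hε hε1 hρ0 hρ1 hb hβ hF hV hF1 t h
  have hF2 : Per Q (fun t => F t ^ 2) := by
    intro t
    show F (t + Q) ^ 2 = F t ^ 2
    rw [hPF t]
  have hshift : Av Q (fun t => F (t + (b : ℤ)) ^ 2) = Av Q (fun t => F t ^ 2) :=
    hPER.shift Q _ hF2 (b : ℤ)
  have h1 : |Av Q S| ≤ b / (τ * Av Q X) * δ +
      ((τ * (Av Q X * b) * (ε / 2 + 15 / 2 * (Av Q X * b * Real.sqrt τ))) *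
        (Av Q (fun t => V t ^ 2) + Av Q (fun t => F t ^ 2)) +
        36 * (Av Q X * b) * (Av Q X * b * Real.sqrt τ)) := by
    refine (av_abs Q S).trans ((av_mono hpt).trans ?_)
    rw [av_add, av_mul, av_add, av_mul, av_add, av_const hQ, hshift]
    have : b / (τ * Av Q X) * Av Q bad ≤ b / (τ * Av Q X) * δ :=
      mul_le_mul_of_nonneg_left hbadle (by positivity)
    linarith
  have h2 : |Av Q (fun t => (τ * X t - τ * Av Q X) * V t * F t)| = |Av Q S| / b := by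
    rw [hAvS, abs_mul, abs_of_pos hb0]
    field_simp
  rw [h2]
  have hv : 0 ≤ Av Q (fun t => V t ^ 2) := by
    have h3 := av_mono (Q := Q) (f := fun _ => (0 : ℝ)) (g := fun t => V t ^ 2)
      (fun t => sq_nonneg _)
    rwa [av_const hQ] at h3
  have hy : 0 ≤ Av Q (fun t => F t ^ 2) := by
    have h3 := av_mono (Q := Q) (f := fun _ => (0 : ℝ)) (g := fun t => F t ^ 2)
      (fun t => sq_nonneg _)
    rwa [av_const hQ] at h3
  have h3 := final_ineq (w := Av Q (fun t => V t ^ 2) + Av Q (fun t => F t ^ 2)) hρ0 hτ hb0 hε hβ0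
    hδ (add_nonneg hv hy)
  refine (div_le_div_of_nonneg_right h1 hb0.le).trans (h3.trans (le_of_eq ?_))
  ring

end Pool.Agent.Helper8.TB
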