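import Pool.Agent.Helper76.TB.Goals2
import Pool.Agent.Helper10.TB.BLK2

/-!
# Project TB (MP_74f661_nt), packet BLK3: the means of the block statistics, optimal thresholds
-/

set_option autoImplicit false

open Finset Filter Topology

namespace Pool.Agent.Helper8.TB

open Pool.Agent.Helper76.TB
open Pool.Agent.Helper90.Twin (Ps Gz XX Xz)
open Pool.Agent.Helper60.BFT
open Pool.Agent.Helper18.BFT
open Pool.Agent.Helper10.TB

theorem ev_rho3 {c : ℝ} (hc : 0 < c) {ρ : ℕ → ℕ} (hρ : Thr2 ρ) :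
    ∀ᶠ r : ℕ in atTop, Real.log (ρ r) * Real.log (Real.log r) ≤ c * Real.log r := by
  have h2 := hρ.high.eventually (eventually_le_nhds hc)
  filter_upwards [h2, eventually_ge_atTop 2] with r hr hr2
  have h3 : 0 < Real.log r := Real.log_pos (by exact_mod_cast (by omega : 1 < r))
  rwa [div_le_iff₀ h3] at hr

theorem blk3 (h1 : MEAN2G) : Pool.Agent.Helper76.TB.BLK3G := by
  intro c hc Z ρ hZ hρ
  obtain ⟨C, hC1, hev⟩ := h1
  have hC0 : 0 < C := by linarith
  have hev' := (tendsto_Z hc hZ).eventually hev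
  refine ⟨1 / (2 * c) ^ 5 + 1, ?_⟩
  have hlog5 : ∀ᶠ r : ℕ in atTop, Real.log r ^ 5 ≤ r := by
    have h := (Real.isLittleO_pow_log_id_atTop (n := 5)).bound (show (0 : ℝ) < 1 by norm_num)
    filter_upwards [tendsto_natCast_atTop_atTop.eventually h] with r hr
    simp only [id, one_mul, Real.norm_eq_abs, Nat.abs_cast] at hr
    exact (le_abs_self _).trans hr
  filter_upwards [hev', ev_logZ hc hZ, ev_rho3 (c := c) hc hρ,
    ev_rho3 (c := 1 / (2 * C)) (by positivity) hρ, hρ.low,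
    tendsto_loglog_nat.eventually_ge_atTop 2, eventually_ge_atTop 6, hlog5,
    (tendsto_log_nat.const_mul_atTop (show 0 < 2 * c by positivity)).eventually_ge_atTop 1,
    tendsto_log_nat.eventually_ge_atTop 1]
    with r hmean hlogZ hρc hρC hlow hll hr6 hl5 hcl hl1 β hβ a
  have hlr : 0 < Real.log r := by linarith
  have hρr : ρ r ≤ r := hρ.le r
  -- sizes
  have hpow20 : (2 : ℝ) ≤ Real.log r := by
    have h := Real.add_one_le_exp (Real.log (Real.log r))
    rw [Real.exp_log hlr] at h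
    linarith
  have hρ20 : (3 : ℝ) ≤ ρ r := by
    refine le_trans ?_ hlow
    calc (3 : ℝ) ≤ 2 ^ 20 := by norm_num
      _ ≤ Real.log r ^ 20 := by gcongr
  have hρ3 : 3 ≤ ρ r := by exact_mod_cast hρ20
  have hρpos : (0 : ℝ) < ρ r := by linarith
  have hlogρ : 20 * Real.log (Real.log r) ≤ Real.log (ρ r) := by
    have h := Real.log_le_log (by positivity) hlow
    rw [Real.log_pow] at h
    push_cast at h
    exact h
  have hlogρ0 : 0 ≤ Real.log (ρ r) := by linarith
  have hrZ : ρ r ≤ Z (r ^ 4) := by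
    have h2 : Real.log (ρ r) ≤ Real.log (Z (r ^ 4)) := by
      have h3 : (1 : ℝ) ≤ Real.log (Real.log r) := by linarith
      have h4 : Real.log (ρ r) * 1 ≤ Real.log (ρ r) * Real.log (Real.log r) :=
        mul_le_mul_of_nonneg_left h3 hlogρ0
      nlinarith
    have hZpos : (0 : ℝ) < Z (r ^ 4) := by
      rcases Nat.eq_zero_or_pos (Z (r ^ 4)) with h0 | h0
      · rw [h0] at hlogZ
        simp at hlogZ
        nlinarith
      · exact_mod_cast h0
    exact_mod_cast (Real.log_le_log_iff hρpos hZpos).1 h2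
  have hZr : Z (r ^ 4) ≤ r ^ 4 := hZ.le _
  -- the progression
  obtain ⟨i0, hi0, hprog⟩ : ∃ i0 < 6, ∀ i, i % 6 = i0 ↔
      ((r ^ 4 + i) % 2 = 1 ∧ (r ^ 4 + i) % 3 = (β r 3 a + 2) % 3) := by
    generalize r ^ 4 = m
    generalize β r 3 a = c
    refine ⟨((3 + 4 * (c + 2)) % 6 + 6 - m % 6) % 6, Nat.mod_lt _ (by norm_num), fun i => ?_⟩
    omega
  set ns := r ^ 4 + i0 with hns
  have hns' := (hprog i0).1 (Nat.mod_eq_of_lt hi0)
  set N := cnt i0 (len 4 r) with hN
  set Zr := Z (r ^ 4) with hZrdef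
  have hlen1 : r ^ 3 ≤ len 4 r := len_ge 4 r (by omega)
  have hpow : r ^ 3 = r * r ^ 2 := by ring
  have hN1 : len 4 r ≤ 6 * N + i0 ∧ 6 * N ≤ len 4 r + 5 := by
    rw [hN]; unfold cnt; omega
  have hNr : r ^ 2 ≤ N := by
    have h1 : 6 * r ^ 2 ≤ r * r ^ 2 := Nat.mul_le_mul_right _ hr6
    have h2 : 1 ≤ r ^ 2 := Nat.one_le_pow _ _ (by omega)
    by_contra hlt
    push Not at hlt
    have : 6 * N + 6 ≤ 6 * r ^ 2 := by omega
    omega
  -- dictionary
  have key : ∀ b : ℕ → ℕ, (∀ q, q ∉ lg (ρ r) Zr → b q = a q) → ∀ t,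
      YF 4 Z β r b (r ^ 4 + (i0 + 6 * t)) = XA Zr (tr (ρ r) Zr ns (fun p => β r p a) b) t := by
    intro b hb t
    rw [← add_assoc]
    exact YF_eq2 hβ hρr hρ3 hb hns'.1 hns'.2 t
  have key0 : ∀ b : ℕ → ℕ, (∀ q, q ∉ lg (ρ r) Zr → b q = a q) → ∀ i, i % 6 ≠ i0 →
      YF 4 Z β r b (r ^ 4 + i) = 0 := by
    intro b hb i hi
    apply YF_zero2 hβ hρr hρ3 hrZ hb
    intro h
    exact hi ((hprog i).2 h)
  have hT0 : EE2 ρ Z (T0 4 Z β r) r a =
      Av (lg (ρ r) Zr) (fun A => B0 (XA Zr A) N) (tr (ρ r) Zr ns (fun p => β r p a) a) := by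
    unfold EE2
    rw [Av_congr (lg (ρ r) Zr) (T0 4 Z β r)
      (fun b => B0 (XA Zr (tr (ρ r) Zr ns (fun p => β r p a) b)) N) a]
    · classical
      exact Av_trans (lg (ρ r) Zr) lg_pos (fun A => B0 (XA Zr A) N)
        (fun A A' h => by unfold B0; exact Finset.sum_congr rfl fun t _ => XA_congr Zr h t)
        (fun p => p ∈ lg (ρ r) Zr) (fun q hq => hq) ns (fun p => β r p a) a
    · intro b hb
      unfold T0 B0
      rw [sum_prog hi0 _ (key0 b hb)]
      exact Finset.sum_congr rfl fun t _ => key b hb t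
  have hT1 : EE2 ρ Z (T1 4 Z β r) r a = chi ns *
      Av (lg (ρ r) Zr) (fun A => B1 (XA Zr A) N) (tr (ρ r) Zr ns (fun p => β r p a) a) := by
    unfold EE2
    rw [Av_congr (lg (ρ r) Zr) (T1 4 Z β r)
      (fun b => chi ns * B1 (XA Zr (tr (ρ r) Zr ns (fun p => β r p a) b)) N) a]
    · rw [Av_mul_left]
      congr 1
      classical
      exact Av_trans (lg (ρ r) Zr) lg_pos (fun A => B1 (XA Zr A) N)
        (fun A A' h => by
          unfold B1; exact Finset.sum_congr rfl fun t _ => by rw [XA_congr Zr h t])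
        (fun p => p ∈ lg (ρ r) Zr) (fun q hq => hq) ns (fun p => β r p a) a
    · intro b hb
      unfold T1 B1
      rw [sum_prog hi0 _ (fun i hi => by rw [key0 b hb i hi, mul_zero]), Finset.mul_sum]
      refine Finset.sum_congr rfl fun t _ => ?_
      rw [key b hb t, ← add_assoc, chi_add _ _ hns'.1]
      ring
  have hT2 : EE2 ρ Z (T2 4 Z β r) r a =
      Av (lg (ρ r) Zr) (fun A => B2 (XA Zr A) N) (tr (ρ r) Zr ns (fun p => β r p a) a) := by
    unfold EE2
    rw [Av_congr (lg (ρ r) Zr) (T2 4 Z β r)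
      (fun b => B2 (XA Zr (tr (ρ r) Zr ns (fun p => β r p a) b)) N) a]
    · classical
      exact Av_trans (lg (ρ r) Zr) lg_pos (fun A => B2 (XA Zr A) N)
        (fun A A' h => by
          unfold B2
          rw [run_congr _ _ (XA Zr A) (XA Zr A') (fun _ => rfl) (fun t => XA_congr Zr h t)])
        (fun p => p ∈ lg (ρ r) Zr) (fun q hq => hq) ns (fun p => β r p a) a
    · intro b hb
      unfold T2 B2
      rw [run_prog hi0 _ _ (key0 b hb)]
      rw [run_congr _ (fun t => chi ns * (-1) ^ t) _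
        (XA Zr (tr (ρ r) Zr ns (fun p => β r p a) b))
        (fun t => by rw [← add_assoc, chi_add _ _ hns'.1]) (fun t => key b hb t)]
      exact (run_scale (chi ns) (chi_sq ns) _ _ _).1
  -- the condition on `log N`
  have hN0 : (0 : ℝ) < N := by
    have : 1 ≤ r ^ 2 := Nat.one_le_pow _ _ (by omega)
    exact_mod_cast lt_of_lt_of_le Nat.zero_lt_one (this.trans hNr)
  have hlogN2 : 2 * Real.log r ≤ Real.log N := by
    have h := Real.log_le_log (show (0 : ℝ) < ((r ^ 2 : ℕ) : ℝ) by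
      exact_mod_cast Nat.pow_pos (by omega)) (show ((r ^ 2 : ℕ) : ℝ) ≤ (N : ℝ) by exact_mod_cast hNr)
    push_cast at h
    rw [Real.log_pow] at h
    exact_mod_cast h
  have hlogN : Real.log r ≤ Real.log N := by linarith
  have hZpos : (0 : ℝ) < Zr := by
    exact_mod_cast lt_of_lt_of_le (by omega : 0 < ρ r) hrZ
  have hLZ1 : 1 ≤ Real.log Zr := hcl.trans hlogZ
  have hl2lo : 0 ≤ l2 Zr := Real.log_nonneg hLZ1
  have hlogZ4 : Real.log Zr ≤ 4 * Real.log r := by
    have h := Real.log_le_log hZpos (show (Zr : ℝ) ≤ ((r ^ 4 : ℕ) : ℝ) by exact_mod_cast hZr)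
    push_cast at h
    rw [Real.log_pow] at h
    exact_mod_cast h
  have hl2hi : l2 Zr ≤ 2 * Real.log (Real.log r) := by
    have e2 : l2 Zr ≤ Real.log (4 * Real.log r) := Real.log_le_log (by linarith) hlogZ4
    rw [Real.log_mul (by norm_num) hlr.ne'] at e2
    have e3 : Real.log 4 ≤ 2 := by
      have : Real.log 4 = 2 * Real.log 2 := by
        rw [show (4 : ℝ) = 2 ^ 2 by norm_num, Real.log_pow]; push_cast; ring
      rw [this]
      have := Real.log_two_lt_d9
      linarith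
    linarith
  have hZρ : Real.log Zr ≤ ρ r := by
    refine le_trans (le_trans hlogZ4 ?_) hlow
    have e1 : (4 : ℝ) ≤ Real.log r ^ 19 := by
      calc (4 : ℝ) ≤ 2 ^ 19 := by norm_num
        _ ≤ Real.log r ^ 19 := by gcongr
    calc 4 * Real.log r ≤ Real.log r ^ 19 * Real.log r :=
          mul_le_mul_of_nonneg_right e1 hlr.le
      _ = Real.log r ^ 20 := by ring
  have hZN : Real.log Zr ≤ 2 * Real.log N := by linarith
  have hcond : C * l2 Zr * Real.log (ρ r) ≤ Real.log N := by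
    set w := Real.log (Real.log r) with hw
    have e4 : C * l2 Zr * Real.log (ρ r) ≤ C * (2 * w) * Real.log (ρ r) :=
      mul_le_mul_of_nonneg_right (mul_le_mul_of_nonneg_left hl2hi hC0.le) hlogρ0
    have e5 : C * (2 * w) * Real.log (ρ r) = 2 * C * (Real.log (ρ r) * w) := by ring
    have e6 : 2 * C * (Real.log (ρ r) * w) ≤ 2 * C * (1 / (2 * C) * Real.log r) :=
      mul_le_mul_of_nonneg_left hρC (by positivity)
    have e7 : 2 * C * (1 / (2 * C) * Real.log r) = Real.log r := by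
      field_simp
    rw [e5] at e4
    rw [e7] at e6
    linarith
  obtain ⟨c0, c1, c2⟩ := hmean (ρ r) N hZρ hrZ hZN hcond (tr (ρ r) Zr ns (fun p => β r p a) a)
  -- numerics
  have hG : 0 < Gz Zr := Helper90.Twin.Gz_pos Zr
  have hG1 : Gz Zr ≤ 1 := Helper90.Twin.Gz_le_one Zr
  have hmT : mT 4 Z r = len 4 r * Gz Zr / 6 := rfl
  have hNlen : |(N : ℝ) - len 4 r / 6| ≤ 1 := by
    have h1 : (len 4 r : ℝ) ≤ 6 * N + i0 := by exact_mod_cast hN1.1
    have h2 : (6 * N : ℝ) ≤ len 4 r + 5 := by exact_mod_cast hN1.2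
    have h3 : (i0 : ℝ) ≤ 6 := by exact_mod_cast hi0.le
    rw [abs_le]; constructor <;> linarith
  have hlenr : (r : ℝ) ≤ len 4 r := by
    have : r ≤ r ^ 3 := Nat.le_self_pow (by norm_num) r
    exact_mod_cast this.trans hlen1
  have hl5pos : 0 < Real.log r ^ 5 := by positivity
  have hone : (1 : ℝ) ≤ len 4 r / Real.log r ^ 5 := by
    rw [le_div_iff₀ hl5pos, one_mul]
    exact hl5.trans hlenr
  have hNle : (N : ℝ) ≤ len 4 r := by
    have h2 : (6 * N : ℝ) ≤ len 4 r + 5 := by exact_mod_cast hN1.2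
    have h3 : (6 : ℝ) ≤ r := by exact_mod_cast hr6
    linarith
  have herr : (N : ℝ) / Real.log Zr ^ 5 ≤ 1 / (2 * c) ^ 5 * (len 4 r / Real.log r ^ 5) := by
    have e1 : (2 * c * Real.log r) ^ 5 ≤ Real.log Zr ^ 5 := by gcongr
    have e2 : (N : ℝ) / Real.log Zr ^ 5 ≤ len 4 r / (2 * c * Real.log r) ^ 5 :=
      div_le_div₀ (Nat.cast_nonneg _) hNle (by positivity) e1
    refine e2.trans (le_of_eq ?_)
    rw [mul_pow]
    field_simp
  have hfin : ∀ x : ℝ, x ≤ (N : ℝ) / Real.log Zr ^ 5 + 1 →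
      x ≤ (1 / (2 * c) ^ 5 + 1) * (len 4 r / Real.log r ^ 5) := by
    intro x hx
    have : (1 / (2 * c) ^ 5 + 1) * (len 4 r / Real.log r ^ 5) =
        1 / (2 * c) ^ 5 * (len 4 r / Real.log r ^ 5) + len 4 r / Real.log r ^ 5 := by ring
    rw [this]
    linarith
  refine ⟨?_, ?_, ?_⟩
  · rw [hT0]
    apply hfin
    have h1 : |Av (lg (ρ r) Zr) (fun A => B0 (XA Zr A) N) (tr (ρ r) Zr ns (fun p => β r p a) a)
        - mT 4 Z r| ≤ |Av (lg (ρ r) Zr) (fun A => B0 (XA Zr A) N)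
          (tr (ρ r) Zr ns (fun p => β r p a) a) - N * Gz Zr| + |(N : ℝ) * Gz Zr - mT 4 Z r| :=
      abs_sub_le _ _ _
    have h2 : |(N : ℝ) * Gz Zr - mT 4 Z r| ≤ 1 := by
      have h1 : (N : ℝ) * Gz Zr - mT 4 Z r = (N - len 4 r / 6) * Gz Zr := by rw [hmT]; ring
      rw [h1, abs_mul, abs_of_pos hG]
      calc |(N : ℝ) - len 4 r / 6| * Gz Zr ≤ 1 * 1 :=
            mul_le_mul hNlen hG1 hG.le zero_le_one
        _ = 1 := one_mul _
    linarith
  · rw [hT1, abs_mul, chi_abs, one_mul]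
    apply hfin
    linarith
  · rw [hT2]
    apply hfin
    have e1 : mT 4 Z r * DD Zr = len 4 r / 6 * PA Zr sg := by
      rw [hmT, DD]
      field_simp
    rw [e1]
    have h1 : |Av (lg (ρ r) Zr) (fun A => B2 (XA Zr A) N) (tr (ρ r) Zr ns (fun p => β r p a) a)
        - len 4 r / 6 * PA Zr sg| ≤ |Av (lg (ρ r) Zr) (fun A => B2 (XA Zr A) N)
          (tr (ρ r) Zr ns (fun p => β r p a) a) - N * PA Zr sg| +
          |(N : ℝ) * PA Zr sg - len 4 r / 6 * PA Zr sg| := abs_sub_le _ _ _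
    have h2 : |(N : ℝ) * PA Zr sg - len 4 r / 6 * PA Zr sg| ≤ 1 := by
      rw [← sub_mul, abs_mul]
      calc |(N : ℝ) - len 4 r / 6| * |PA Zr sg| ≤ 1 * 1 :=
            mul_le_mul hNlen (abs_PA_le Zr) (abs_nonneg _) zero_le_one
        _ = 1 := one_mul _
    linarith

end Pool.Agent.Helper8.TB
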